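import Mathlib
import Pool.Agent.N475.XTwoY

set_option autoImplicit false

namespace Pool.Agent.N475.Shelf.XTwoYClassification

open Polynomial

/-- The equation `x - 2 y = p z` is partition regular over the positive integers: for every
colouring of the positive integers with finitely many colours there are positive integers
`x, y, z` (not necessarily distinct) of one colour with `x - 2 y = p z`. -/
def PartitionRegular (p : ℤ[X]) : Prop :=
  ∀ (r : ℕ) (c : ℕ+ → Fin r), ∃ x y z : ℕ+, c x = c y ∧ c y = c z ∧
    ((x : ℕ) : ℤ) - 2 * ((y : ℕ) : ℤ) = p.eval ((z : ℕ) : ℤ)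

/-- All polynomials `p` with integer coefficients and `p 0 = 0` for which `x - 2 y = p z` is
partition regular: they are `p = X`, `p = -2 X`, and those with `p t = -t` for some positive
integer `t`, that is, those for which `x - 2 y = p z` has a constant solution `x = y = z = t`. -/
theorem result (p : ℤ[X]) (hp : p.eval 0 = 0) :
    PartitionRegular p ↔
      p = X ∨ p = -2 * X ∨ ∃ t : ℕ, 0 < t ∧ p.eval (t : ℤ) = -(t : ℤ) :=
  Pool.Agent.N475.XTwoY.main p hp

end Pool.Agent.N475.Shelf.XTwoYClassification
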